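import Mathlib

/-!
Project MD (helper221): DISPROOF for MP_571698_co (frozen negation S08852).

There is a connected graph on 10 vertices with a Turan function of total mass > 10.
For it every resolving set of the n-th Cartesian power has at least (2-o(1)) n log C / log n
elements with C > 10, so m(G,n) log_10 n / n does not tend to 2.
-/

set_option autoImplicit false

namespace Pool.Agent.H221R3.MD

open Finset

/-- the difference of the distance sums from `a` and from `b` to `s`. -/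
def ms {q n : ℕ} (D : Fin q → Fin q → ℕ) (a b s : Fin n → Fin q) : ℤ :=
  ∑ k, ((D (a k) (s k) : ℤ) - (D (b k) (s k) : ℤ))

/-- `K` is a symmetric nonnegative kernel with trace one, mass `C`, whose transform is `≥ 0`. -/
def PosK (q : ℕ) (D : Fin q → Fin q → ℕ) (K : Fin q → Fin q → ℝ) (C : ℝ) : Prop :=
  (∀ u v, 0 ≤ K u v) ∧ (∀ u v, K u v = K v u) ∧ (∑ u, K u u = 1) ∧ (∑ u, ∑ v, K u v = C) ∧
  ∀ x : Fin q → ℝ, 0 ≤ ∑ u, ∑ v, K u v * Real.cos (∑ s, x s * ((D u s : ℝ) - (D v s : ℝ)))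

/-- `S` resolves: the sums of distances to the elements of `S` determine the point. -/
def Resol {q n : ℕ} (D : Fin q → Fin q → ℕ) (S : Finset (Fin n → Fin q)) : Prop :=
  ∀ x y : Fin n → Fin q, x ≠ y → ∃ s ∈ S, ∑ k, D (x k) (s k) ≠ ∑ k, D (y k) (s k)

/-- TaskA (product formula).  Write `cos (∑ ξ_s ms)` as real part of a product of exponentials;
for each coordinate `k` the sum over `(u,v)` of `K u v * exp(i ...)` is real by symmetry, and equals the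
transform of `K` at `x k v' = ∑ s ∈ S with s k = v', ξ s`, so it is `≥ 0`. -/
def TaskA : Prop := ∀ (q n : ℕ) (D : Fin q → Fin q → ℕ) (K : Fin q → Fin q → ℝ) (C : ℝ),
  PosK q D K C → ∀ (S : Finset (Fin n → Fin q)) (ξ : (Fin n → Fin q) → ℝ),
    (0 ≤ ∑ a : Fin n → Fin q, ∑ b : Fin n → Fin q, (∏ k, K (a k) (b k)) *
        Real.cos (∑ s ∈ S, ξ s * (ms D a b s : ℝ))) ∧
    (∑ a : Fin n → Fin q, ∑ b : Fin n → Fin q, (∏ k, K (a k) (b k)) *
        Real.sin (∑ s ∈ S, ξ s * (ms D a b s : ℝ)) = 0)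

/-- TaskB (from the positivity of the transform to `G'(y) ≤ G'(0) = 1`).
Average `F(ξ) * (1 - cos (∑ ξ_s y_s))` over `ξ ∈ (2π/N) {0..N-1}^S`, `N` large
(`F(ξ)` is the sum in `TaskA`), and use that only `a = b` has `ms D a b s = 0` for all `s ∈ S`
(by `Resol`), and `∑_a ∏ K (a k) (a k) = 1`. -/
def TaskB : Prop := TaskA → ∀ (q n : ℕ) (D : Fin q → Fin q → ℕ) (K : Fin q → Fin q → ℝ) (C : ℝ),
  PosK q D K C → ∀ (S : Finset (Fin n → Fin q)), Resol D S → ∀ y : (Fin n → Fin q) → ℤ,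
    (∑ a : Fin n → Fin q, ∑ b : Fin n → Fin q,
      (∏ k, K (a k) (b k)) * (if ∀ s ∈ S, ms D a b s = y s then (1 : ℝ) else 0)) ≤ 1

/-- TaskC (Chernoff tail, `cosh x ≤ exp (x^2/2)`). -/
def TaskC : Prop := ∀ (q n : ℕ) (D : Fin q → Fin q → ℕ) (K : Fin q → Fin q → ℝ) (C : ℝ) (R : ℝ),
  PosK q D K C → 0 < R → 0 < n → (∀ u s, (D u s : ℝ) ≤ R) → ∀ (s : Fin n → Fin q) (t : ℝ), 0 ≤ t →
    (∑ a : Fin n → Fin q, ∑ b : Fin n → Fin q,
      (∏ k, K (a k) (b k)) * (if t < |(ms D a b s : ℝ)| then (1 : ℝ) else 0)) ≤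
      2 * Real.exp (-(t ^ 2) / (2 * n * R ^ 2)) * C ^ n

/-- TaskD (union bound + counting the box `[-t,t]^S`). -/
def TaskD : Prop := TaskA → TaskB → TaskC →
  ∀ (q n : ℕ) (D : Fin q → Fin q → ℕ) (K : Fin q → Fin q → ℝ) (C : ℝ) (R : ℝ),
  PosK q D K C → 0 < R → 0 < n → (∀ u s, (D u s : ℝ) ≤ R) →
  ∀ (S : Finset (Fin n → Fin q)), Resol D S → ∀ t : ℕ,
    4 * (S.card : ℝ) * Real.exp (-((t : ℝ) ^ 2) / (2 * n * R ^ 2)) ≤ 1 →
    C ^ n ≤ 2 * (2 * (t : ℝ) + 1) ^ S.card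

/-- TaskE (asymptotics): take `t = ⌈R sqrt(2 n log(4 n))⌉`. -/
def TaskE : Prop := ∀ (q : ℕ) (C R : ℝ) (m : ℕ → ℕ), 2 ≤ q → (q : ℝ) < C → 0 < R →
  (∀ n : ℕ, 0 < n → ∀ t : ℕ,
    4 * (m n : ℝ) * Real.exp (-((t : ℝ) ^ 2) / (2 * n * R ^ 2)) ≤ 1 →
    C ^ n ≤ 2 * (2 * (t : ℝ) + 1) ^ (m n)) →
  ¬ Filter.Tendsto (fun n : ℕ => (m n : ℝ) * Real.logb (q : ℝ) (n : ℝ) / (n : ℝ))
      Filter.atTop (nhds 2)

/-- TaskF (distance in the Cartesian power is the sum of the distances). -/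
def TaskF : Prop := ∀ (q n : ℕ) (G : SimpleGraph (Fin q)), G.Connected →
  ∀ x s : Fin n → Fin q,
    (SimpleGraph.fromRel (fun a b : Fin n → Fin q =>
      ∃ i : Fin n, G.Adj (a i) (b i) ∧ ∀ j : Fin n, j ≠ i → a j = b j)).dist x s =
    ∑ k, G.dist (x k) (s k)

/-- the distance table of the graph. -/
def DT : Fin 10 → Fin 10 → ℕ :=
 ![![0, 1, 1, 1, 1, 1, 1, 2, 2, 2],
   ![1, 0, 2, 2, 2, 1, 1, 1, 2, 2],
   ![1, 2, 0, 2, 1, 2, 1, 2, 1, 2],
   ![1, 2, 2, 0, 1, 1, 2, 2, 2, 1],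
   ![1, 2, 1, 1, 0, 2, 2, 3, 1, 1],
   ![1, 1, 2, 1, 2, 0, 2, 1, 3, 1],
   ![1, 1, 1, 2, 2, 2, 0, 1, 1, 3],
   ![2, 1, 2, 2, 3, 1, 1, 0, 2, 2],
   ![2, 2, 1, 2, 1, 3, 1, 2, 0, 2],
   ![2, 2, 2, 1, 1, 1, 3, 2, 2, 0]]

/-- TaskG: `DT` is the distance function of a connected graph (adjacency = entry 1). -/
def TaskG : Prop := ∃ G : SimpleGraph (Fin 10), G.Connected ∧ ∀ u v, G.dist u v = DT u v

/-- TaskP (positivity certificate; helper221 works on it). -/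
def TaskP : Prop := ∃ (K : Fin 10 → Fin 10 → ℝ) (C : ℝ), 10 < C ∧ PosK 10 DT K C

/-- TaskH: final assembly. -/
def TaskH : Prop := TaskA → TaskB → TaskC → TaskD → TaskE → TaskF → TaskG → TaskP →
    ¬ (∀ q : ℕ, 2 ≤ q → ∀ G : SimpleGraph (Fin q), G.Connected →
      Filter.Tendsto
        (fun n : ℕ =>
          ((sInf {k : ℕ | ∃ S : Finset (Fin n → Fin q), S.card = k ∧
              ∀ x y : Fin n → Fin q, x ≠ y → ∃ s ∈ S,
                (SimpleGraph.fromRel (fun a b : Fin n → Fin q =>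
                    ∃ i : Fin n, G.Adj (a i) (b i) ∧ ∀ j : Fin n, j ≠ i → a j = b j)).dist x s ≠
                (SimpleGraph.fromRel (fun a b : Fin n → Fin q =>
                    ∃ i : Fin n, G.Adj (a i) (b i) ∧ ∀ j : Fin n, j ≠ i → a j = b j)).dist y s} : ℕ) : ℝ)
            * Real.logb (q : ℝ) (n : ℝ) / (n : ℝ))
        Filter.atTop (nhds 2))

end Pool.Agent.H221R3.MD
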