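import Pool.Agent.H221R3.MD.StmtsP

set_option autoImplicit false

namespace Pool.Agent.H221R3.MD

open ComplexConjugate

theorem taskP1 : TaskP1 := by
  intro u1 u2 u3 h1 h2 h3
  have key : ∀ u : ℂ, ‖u‖ = 1 → conj u * u = 1 := by
    intro u hu
    rw [← Complex.normSq_eq_conj_mul_self, Complex.normSq_eq_norm_sq, hu]; simp
  have k1 := key u1 h1
  have k2 := key u2 h2
  have k3 := key u3 h3
  have n1 : u1 ≠ 0 := by intro h; rw [h] at h1; simp at h1
  have n2 : u2 ≠ 0 := by intro h; rw [h] at h2; simp at h2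
  have n3 : u3 ≠ 0 := by intro h; rw [h] at h3; simp at h3
  have c1 : conj u1 = u1⁻¹ := eq_inv_of_mul_eq_one_left k1
  have c2 : conj u2 = u2⁻¹ := eq_inv_of_mul_eq_one_left k2
  have c3 : conj u3 = u3⁻¹ := eq_inv_of_mul_eq_one_left k3
  have hsq : ∀ z : ℂ, ((‖z‖ ^ 2 : ℝ) : ℂ) = conj z * z := by
    intro z
    rw [← Complex.normSq_eq_conj_mul_self, Complex.normSq_eq_norm_sq]
  have hre : ∀ z : ℂ, ((z.re : ℝ) : ℂ) = (z + conj z) / 2 := by
    intro z
    rw [Complex.add_conj]; push_cast; ring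
  have main : (((27 - 18 * ‖u1 + u2 + u3‖ ^ 2
    + 8 * ((u1 + u2 + u3) ^ 3 * (starRingEnd ℂ) (u1 * u2 * u3)).re - ‖u1 + u2 + u3‖ ^ 4 : ℝ)) : ℂ)
      = ((‖(u1 - u2) * (u2 - u3) * (u3 - u1)‖ ^ 2 : ℝ) : ℂ) := by
    have h4 : ‖u1 + u2 + u3‖ ^ 4 = (‖u1 + u2 + u3‖ ^ 2) ^ 2 := by ring
    rw [h4]
    rw [Complex.ofReal_sub, Complex.ofReal_add, Complex.ofReal_sub, Complex.ofReal_mul,
      Complex.ofReal_mul, Complex.ofReal_pow (‖u1 + u2 + u3‖ ^ 2) 2, hre, hsq, hsq]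
    simp only [map_mul, map_add, map_sub, map_pow, Complex.conj_conj]
    simp only [c1, c2, c3]
    push_cast
    field_simp
    ring
  have := Complex.ofReal_injective main
  rw [this]
  positivity

end Pool.Agent.H221R3.MD
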