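import Pool.Agent.H221R3.MD.StmtsP

set_option autoImplicit false

namespace Pool.Agent.H221R3.MD

lemma p2_core (r c : ℝ) (hr0 : 0 ≤ r) (hr6 : r ≤ 6) (hc1 : -1 ≤ c) (hc : c ≤ 1)
    (hD : r ^ 4 - 12 * r ^ 3 * c + 4 * r ^ 2 * c ^ 2 + 44 * r ^ 2 - 64 * r * c - 16 + 16 * c ^ 2 ≤ 1 / 1000)
    (hE : 3 ≤ r → (r - 3) ^ 2 ≤ 8 * (1 - c)) : r ^ 2 - (31 / 10) * r * c ≤ 29 / 50 := by
  by_contra h
  push Not at h
  rcases le_or_gt c 0 with hc0 | hc0
  · have h1 : 0 ≤ r * (-c) := mul_nonneg hr0 (by linarith)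
    have h2 : 0 ≤ r ^ 2 * (r * (-c)) := mul_nonneg (sq_nonneg r) h1
    nlinarith [sq_nonneg (-c - 0.928 * r), h1, h2, sq_nonneg (r ^ 2), sq_nonneg (r * c)]
  · rcases le_or_gt (r ^ 2) 10.6 with hR | hR
    · have hRpos : 29 / 50 < r ^ 2 := by nlinarith [mul_nonneg hr0 hc0.le]
      obtain ⟨R, hRdef⟩ : ∃ R, R = r ^ 2 := ⟨_, rfl⟩
      obtain ⟨t, htdef⟩ : ∃ t, t = r * c := ⟨_, rfl⟩
      obtain ⟨T, hT⟩ : ∃ T, T = (R - 29 / 50) / (31 / 10) := ⟨_, rfl⟩
      have hRT : R = 29 / 50 + (31 / 10) * T := by rw [hT]; ring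
      have ht0 : 0 ≤ t := by rw [htdef]; exact mul_nonneg hr0 hc0.le
      have htT : t ≤ T := by
        have : (31 / 10) * t < R - 29 / 50 := by rw [htdef, hRdef]; linarith
        rw [hT, le_div_iff₀ (by norm_num)]
        linarith
      have hTh : R ^ 3 - 12 * R ^ 2 * t + 4 * R * t ^ 2 + 44 * R ^ 2 - 64 * R * t - 16 * R + 16 * t ^ 2
          ≤ R / 1000 := by
        have := mul_le_mul_of_nonneg_left hD (sq_nonneg r)
        rw [hRdef, htdef]
        nlinarith [this]
      rw [← hRdef] at hR hRpos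
      have hT0 : 0 ≤ T := le_trans ht0 htT
      have hstep : R ^ 3 - 12 * R ^ 2 * T + 4 * R * T ^ 2 + 44 * R ^ 2 - 64 * R * T - 16 * R + 16 * T ^ 2
          ≤ R ^ 3 - 12 * R ^ 2 * t + 4 * R * t ^ 2 + 44 * R ^ 2 - 64 * R * t - 16 * R + 16 * t ^ 2 := by
        have h3 : 0 ≤ (T - t) * (12 * R ^ 2 + 64 * R - 4 * R * (t + T) - 16 * (t + T)) := by
          apply mul_nonneg (by linarith)
          have hR0 : 0 ≤ R := by linarith
          have h4 : t + T ≤ 2 * R / (31 / 10) := by
            rw [le_div_iff₀ (by norm_num)]; nlinarith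
          have h5 : R * (t + T) ≤ R * (2 * R / (31 / 10)) := mul_le_mul_of_nonneg_left h4 hR0
          have h6 : R * (2 * R / (31 / 10)) = R ^ 2 * (20 / 31) := by ring
          have h7 : 2 * R / (31 / 10) = R * (20 / 31) := by ring
          rw [h6] at h5
          rw [h7] at h4
          nlinarith [sq_nonneg R]
        nlinarith [h3]
      have h8 : R / 1000 <
          R ^ 3 - 12 * R ^ 2 * T + 4 * R * T ^ 2 + 44 * R ^ 2 - 64 * R * T - 16 * R + 16 * T ^ 2 := by
        have hTR : T = (10 / 31) * R - 29 / 155 := by rw [hT]; ring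
        rw [hTR]
        have h9 : 0 ≤ R * ((R - 29 / 50) * (10.6 - R)) :=
          mul_nonneg (by linarith) (mul_nonneg (by linarith) (by linarith))
        nlinarith [h9, mul_nonneg (by linarith : (0 : ℝ) ≤ R - 29 / 50) (by linarith : (0 : ℝ) ≤ 10.6 - R)]
      linarith
    · have hr3 : 3.25 < r := by nlinarith
      have hE' := hE (by linarith)
      have h1c : 0 ≤ 1 - c := by linarith
      have hpoly : r ^ 4 - 12 * r ^ 3 * c + 4 * r ^ 2 * c ^ 2 + 44 * r ^ 2 - 64 * r * c - 16 + 16 * c ^ 2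
          = r * (r - 4) ^ 3 + (1 - c) * (12 * r ^ 3 + 64 * r - 8 * r ^ 2 - 32)
            + (1 - c) * ((1 - c) * (4 * r ^ 2 + 16)) := by
        ring
      have hb : 0 ≤ (1 - c) * ((1 - c) * (4 * r ^ 2 + 16)) :=
        mul_nonneg h1c (mul_nonneg h1c (by positivity))
      have hc500 : 500 ≤ 12 * r ^ 3 + 64 * r - 8 * r ^ 2 - 32 := by
        nlinarith [mul_pos (by linarith : (0 : ℝ) < r - 3.25) (by linarith : (0 : ℝ) < r),
          mul_pos (mul_pos (by linarith : (0 : ℝ) < r - 3.25) (by linarith : (0 : ℝ) < r))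
            (by linarith : (0 : ℝ) < r)]
      have h500 : (1 - c) * 500 ≤ (1 - c) * (12 * r ^ 3 + 64 * r - 8 * r ^ 2 - 32) :=
        mul_le_mul_of_nonneg_left hc500 h1c
      have hlow : r * (r - 4) ^ 3 + 62.5 * (r - 3) ^ 2 ≤ 1 / 1000 := by
        rw [hpoly] at hD
        have h501 : 62.5 * (r - 3) ^ 2 ≤ (1 - c) * 500 := by
          have : 62.5 * (r - 3) ^ 2 ≤ 62.5 * (8 * (1 - c)) :=
            mul_le_mul_of_nonneg_left hE' (by norm_num)
          linarith
        linarith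
      rcases le_or_gt r 4 with hr4 | hr4
      · have h10 : (4 - r) ^ 3 ≤ 4 - r := by
          have h11 : 0 ≤ 4 - r := by linarith
          have h12 : 4 - r ≤ 1 := by linarith
          have h13 : (4 - r) ^ 2 ≤ 1 := by nlinarith
          nlinarith [mul_le_mul_of_nonneg_left h13 h11]
        have h14 : r * (4 - r) ^ 3 ≤ 4 * (4 - r) := by
          have h15 : 0 ≤ (4 - r) ^ 3 := by
            have : 0 ≤ 4 - r := by linarith
            positivity
          nlinarith
        have h16 : r * (r - 4) ^ 3 = -(r * (4 - r) ^ 3) := by ring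
        nlinarith
      · have h17 : 0 ≤ r * (r - 4) ^ 3 := by
          have : 0 ≤ r - 4 := by linarith
          positivity
        have h18 : 0 ≤ (r - 4) * (r - 2) := mul_nonneg (by linarith) (by linarith)
        have h19 : (r - 3) ^ 2 = 1 + (r - 4) * (r - 2) := by ring
        rw [h19] at hlow
        linarith

theorem taskP2 : TaskP2 := by
  intro r C hC1 hC2 hr1 hr2 hD hE1 hE2
  unfold DP at hD
  rcases le_total 0 r with hr | hr
  · have := p2_core r (-C) hr hr2 (by linarith) (by linarith) (by nlinarith [hD])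
      (fun h => by have := hE1 h; linarith)
    linarith
  · have := p2_core (-r) C (by linarith) (by linarith) hC1 hC2 (by nlinarith [hD])
      (fun h => by have := hE2 (by linarith); nlinarith)
    nlinarith

end Pool.Agent.H221R3.MD
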