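import Pool.Agent.H221R3.MD.StmtsP

set_option autoImplicit false

namespace Pool.Agent.H221R3.MD

open Real

lemma p3_core (a b c φ : ℝ) (h : a + b + c = -φ)
    (hle : 2 * (cos a + cos b + cos c) ≤ -3) :
    (2 * (cos a + cos b + cos c) + 3) ^ 2 ≤ 8 * (1 - cos φ) := by
  obtain ⟨w, hw⟩ : ∃ w, w = a + b := ⟨_, rfl⟩
  have hc : cos c = cos φ * cos w - sin φ * sin w := by
    have : c = -(φ + w) := by rw [hw]; linarith
    rw [this, cos_neg, cos_add]
  have hpos : 0 ≤ 3 + 2 * (cos a + cos b + cos w) := by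
    have h1 : 3 + 2 * (cos a + cos b + cos w) = (1 + cos a + cos b) ^ 2 + (sin a - sin b) ^ 2 := by
      rw [hw, cos_add]
      nlinarith [sin_sq_add_cos_sq a, sin_sq_add_cos_sq b]
    rw [h1]; positivity
  have hd : 2 * (cos c - cos w) ≤ 2 * (cos a + cos b + cos c) + 3 := by linarith
  have hsq : (2 * (cos a + cos b + cos c) + 3) ^ 2 ≤ (2 * (cos c - cos w)) ^ 2 := by
    nlinarith
  have hcs : (cos c - cos w) ^ 2 ≤ 2 * (1 - cos φ) := by
    rw [hc]
    have e1 := sin_sq_add_cos_sq φ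
    have e2 := sin_sq_add_cos_sq w
    have e3 : (cos φ * cos w - sin φ * sin w - cos w) ^ 2
        + ((1 - cos φ) * sin w - sin φ * cos w) ^ 2
        = ((1 - cos φ) ^ 2 + sin φ ^ 2) * (sin w ^ 2 + cos w ^ 2) := by ring
    have e4 : (1 - cos φ) ^ 2 + sin φ ^ 2 = 2 * (1 - cos φ) := by nlinarith
    rw [e2, e4] at e3
    nlinarith [sq_nonneg ((1 - cos φ) * sin w - sin φ * cos w)]
  nlinarith

theorem taskP3 : TaskP3 := by
  intro a b c φ h
  refine ⟨fun hge => ?_, fun hle => p3_core a b c φ h hle⟩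
  have := p3_core (a - π) (b - π) (c + π) (φ + π) (by linarith) (by
    rw [cos_sub_pi, cos_sub_pi, cos_add_pi]; linarith)
  rw [cos_sub_pi, cos_sub_pi, cos_add_pi, cos_add_pi] at this
  nlinarith

end Pool.Agent.H221R3.MD
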