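import Pool.Agent.H221R3.MD.StmtsP

set_option autoImplicit false

namespace Pool.Agent.H221R3.MD

open ComplexConjugate

/-- the polynomial of the deltoid inequality -/
noncomputable def Phi (U w : ℂ) : ℝ :=
  27 - 18 * ‖U‖ ^ 2 + 8 * (U ^ 3 * conj w).re - ‖U‖ ^ 4

lemma phi_lip (U V w : ℂ) (N : ℝ) (hw : ‖w‖ = 1) (hU : ‖U‖ ≤ 3) (hV : ‖V‖ ≤ 4)
    (hUV : ‖U - V‖ ≤ N) : Phi U w - 600 * N ≤ Phi V w := by
  have hN : 0 ≤ N := le_trans (norm_nonneg _) hUV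
  have h1 : ‖U‖ - ‖V‖ ≤ N := le_trans (norm_sub_norm_le _ _) hUV
  have h2 : ‖V‖ - ‖U‖ ≤ N := by
    have := norm_sub_norm_le V U
    rw [norm_sub_rev] at this
    linarith
  have hU0 := norm_nonneg U
  have hV0 := norm_nonneg V
  have hsq : ‖V‖ ^ 2 - ‖U‖ ^ 2 ≤ 7 * N := by nlinarith
  have hsq' : -(7 * N) ≤ ‖V‖ ^ 2 - ‖U‖ ^ 2 := by nlinarith
  have hq : ‖V‖ ^ 4 - ‖U‖ ^ 4 ≤ 175 * N := by
    have e : ‖V‖ ^ 4 - ‖U‖ ^ 4 = (‖V‖ ^ 2 - ‖U‖ ^ 2) * (‖V‖ ^ 2 + ‖U‖ ^ 2) := by ring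
    have h25 : ‖V‖ ^ 2 + ‖U‖ ^ 2 ≤ 25 := by nlinarith
    have h0 : 0 ≤ ‖V‖ ^ 2 + ‖U‖ ^ 2 := by positivity
    rw [e]
    nlinarith
  have hc : (U ^ 3 * conj w).re - (V ^ 3 * conj w).re ≤ 37 * N := by
    have e : (U ^ 3 * conj w).re - (V ^ 3 * conj w).re
        = ((U - V) * (U ^ 2 + U * V + V ^ 2) * conj w).re := by
      rw [← Complex.sub_re]; congr 1; ring
    rw [e]
    have hn : ‖(U - V) * (U ^ 2 + U * V + V ^ 2) * conj w‖ ≤ 37 * N := by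
      rw [norm_mul, norm_mul, RCLike.norm_conj, hw, mul_one]
      have h37 : ‖U ^ 2 + U * V + V ^ 2‖ ≤ 37 := by
        calc ‖U ^ 2 + U * V + V ^ 2‖ ≤ ‖U ^ 2‖ + ‖U * V‖ + ‖V ^ 2‖ := norm_add₃_le
          _ = ‖U‖ ^ 2 + ‖U‖ * ‖V‖ + ‖V‖ ^ 2 := by rw [norm_pow, norm_mul, norm_pow]
          _ ≤ 37 := by nlinarith [mul_nonneg hU0 hV0]
      calc ‖U - V‖ * ‖U ^ 2 + U * V + V ^ 2‖ ≤ N * 37 :=
            mul_le_mul hUV h37 (norm_nonneg _) hN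
        _ = 37 * N := by ring
    exact le_trans (le_trans (le_abs_self _) (Complex.abs_re_le_norm _)) hn
  unfold Phi
  nlinarith

lemma phi_base (r φ : ℝ) :
    Phi (-1 - Complex.exp (φ * Complex.I) * r) (Complex.exp (φ * Complex.I) ^ 2)
      = - DP r (Real.cos φ) := by
  have hs := Real.sin_sq_add_cos_sq φ
  obtain ⟨C, hC⟩ : ∃ C, C = Real.cos φ := ⟨_, rfl⟩
  obtain ⟨S, hS⟩ : ∃ S, S = Real.sin φ := ⟨_, rfl⟩
  rw [← hC, ← hS] at hs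
  have hq : Complex.exp (φ * Complex.I) = ⟨C, S⟩ := by
    apply Complex.ext
    · simp [Complex.exp_ofReal_mul_I_re, hC]
    · simp [Complex.exp_ofReal_mul_I_im, hS]
  rw [hq, ← hC]
  have hn : ‖(-1 - (⟨C, S⟩ : ℂ) * r)‖ ^ 2 = 1 + 2 * r * C + r ^ 2 := by
    rw [← Complex.normSq_eq_norm_sq, Complex.normSq_apply]
    simp
    nlinarith [hs]
  have hn4 : ‖(-1 - (⟨C, S⟩ : ℂ) * r)‖ ^ 4 = (1 + 2 * r * C + r ^ 2) ^ 2 := by
    rw [← hn]; ring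
  have hre : ((-1 - (⟨C, S⟩ : ℂ) * r) ^ 3 * conj ((⟨C, S⟩ : ℂ) ^ 2)).re
      = -((2 * C ^ 2 - 1) + 3 * r * C + 3 * r ^ 2 + r ^ 3 * C) := by
    have hS2 : S ^ 2 = 1 - C ^ 2 := by linarith
    have h1 : (⟨C, S⟩ : ℂ) * conj (⟨C, S⟩ : ℂ) = 1 := by
      rw [Complex.mul_conj, Complex.normSq_apply]
      have : C * C + S * S = 1 := by nlinarith
      simp [this]
    have h2 : (-1 - (⟨C, S⟩ : ℂ) * r) ^ 3 * conj ((⟨C, S⟩ : ℂ) ^ 2)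
        = -((conj (⟨C, S⟩ : ℂ)) ^ 2 + 3 * r * conj (⟨C, S⟩ : ℂ) + 3 * r ^ 2 + r ^ 3 * (⟨C, S⟩ : ℂ)) := by
      rw [map_pow]
      linear_combination (-(3 * (r : ℂ) * conj (⟨C, S⟩ : ℂ)) - 3 * (r : ℂ) ^ 2 * ((⟨C, S⟩ : ℂ) * conj (⟨C, S⟩ : ℂ) + 1)
        - (r : ℂ) ^ 3 * (⟨C, S⟩ : ℂ) * ((⟨C, S⟩ : ℂ) * conj (⟨C, S⟩ : ℂ) + 1)) * h1
    rw [h2]
    have h3 : (conj (⟨C, S⟩ : ℂ)) = ⟨C, -S⟩ := rfl
    rw [h3]
    simp [pow_succ]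
    nlinarith [hS2]
  unfold Phi DP
  rw [hn, hn4, hre]
  ring

theorem taskP4 : TaskP4 := by
  intro hP1 hP2 hP3 a1 a2 a3 b1 b2 b3 φ r ha hb hr
  have hcos1 := Real.neg_one_le_cos φ
  have hcos2 := Real.cos_le_one φ
  have hr6 : r ≤ 6 := by
    rw [hr]; linarith [Real.cos_le_one (a1 - φ), Real.cos_le_one (a2 - φ), Real.cos_le_one (a3 - φ)]
  have hr6' : -6 ≤ r := by
    rw [hr]
    linarith [Real.neg_one_le_cos (a1 - φ), Real.neg_one_le_cos (a2 - φ), Real.neg_one_le_cos (a3 - φ)]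
  obtain ⟨u1, hu1⟩ : ∃ u : ℂ, u = Complex.exp (b1 * Complex.I) := ⟨_, rfl⟩
  obtain ⟨u2, hu2⟩ : ∃ u : ℂ, u = Complex.exp (b2 * Complex.I) := ⟨_, rfl⟩
  obtain ⟨u3, hu3⟩ : ∃ u : ℂ, u = Complex.exp (b3 * Complex.I) := ⟨_, rfl⟩
  obtain ⟨q, hq⟩ : ∃ q : ℂ, q = Complex.exp (φ * Complex.I) := ⟨_, rfl⟩
  have n1 : ‖u1‖ = 1 := by rw [hu1]; exact Complex.norm_exp_ofReal_mul_I b1
  have n2 : ‖u2‖ = 1 := by rw [hu2]; exact Complex.norm_exp_ofReal_mul_I b2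
  have n3 : ‖u3‖ = 1 := by rw [hu3]; exact Complex.norm_exp_ofReal_mul_I b3
  have nq : ‖q‖ = 1 := by rw [hq]; exact Complex.norm_exp_ofReal_mul_I φ
  have hprod : u1 * u2 * u3 = q ^ 2 := by
    rw [hu1, hu2, hu3, hq, ← Complex.exp_add, ← Complex.exp_add, ← Complex.exp_nat_mul]
    congr 1
    have : ((b1 + b2 + b3 : ℝ) : ℂ) = ((2 * φ : ℝ) : ℂ) := by rw [hb]
    push_cast at this
    linear_combination Complex.I * this
  obtain ⟨v, hv⟩ : ∃ v : ℂ, v = 1 + q * r + (u1 + u2 + u3) := ⟨_, rfl⟩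
  have hvn : (1 + r * Real.cos φ + (Real.cos b1 + Real.cos b2 + Real.cos b3)) ^ 2
        + (r * Real.sin φ + (Real.sin b1 + Real.sin b2 + Real.sin b3)) ^ 2 = ‖v‖ ^ 2 := by
    rw [← Complex.normSq_eq_norm_sq, Complex.normSq_apply, hv, hq, hu1, hu2, hu3]
    simp [Complex.exp_ofReal_mul_I_re, Complex.exp_ofReal_mul_I_im]
    ring
  rw [hvn]
  rcases le_or_gt ((10 : ℝ) ^ (-6 : ℤ)) ‖v‖ with hbig | hsmall
  · have h1 : ((10 : ℝ) ^ (-6 : ℤ)) ^ 2 ≤ ‖v‖ ^ 2 := by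
      apply pow_le_pow_left₀ (by positivity) hbig
    have h2 : (100 : ℝ) ≤ (10 : ℝ) ^ 14 * ‖v‖ ^ 2 := by
      have h3 : (10 : ℝ) ^ 14 * ((10 : ℝ) ^ (-6 : ℤ)) ^ 2 = 100 := by norm_num
      have := mul_le_mul_of_nonneg_left h1 (by positivity : (0 : ℝ) ≤ (10 : ℝ) ^ 14)
      linarith
    have h4 : r ^ 2 ≤ 36 := by nlinarith
    have h5 : r * Real.cos φ ≤ 6 := by
      have : |r * Real.cos φ| ≤ 6 := by
        rw [abs_mul]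
        have e1 : |r| ≤ 6 := abs_le.mpr ⟨hr6', hr6⟩
        have e2 : |Real.cos φ| ≤ 1 := abs_le.mpr ⟨hcos1, hcos2⟩
        calc |r| * |Real.cos φ| ≤ 6 * 1 := mul_le_mul e1 e2 (abs_nonneg _) (by norm_num)
          _ = 6 := by norm_num
      exact le_trans (le_abs_self _) this
    nlinarith
  · have hU3 : ‖u1 + u2 + u3‖ ≤ 3 := by
      have := norm_add₃_le (a := u1) (b := u2) (c := u3)
      linarith
    have hsub : (u1 + u2 + u3) - (-1 - q * r) = v := by rw [hv]; ring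
    have hsm : ‖v‖ ≤ 1 := le_trans hsmall.le (by norm_num)
    have hV4 : ‖(-1 - q * r : ℂ)‖ ≤ 4 := by
      have e : (-1 - q * r : ℂ) = (u1 + u2 + u3) - v := by rw [hv]; ring
      rw [e]
      have := norm_sub_le (u1 + u2 + u3) v
      linarith
    have hphi := phi_lip (u1 + u2 + u3) (-1 - q * r) (q ^ 2) ‖v‖ (by rw [norm_pow, nq, one_pow]) hU3 hV4
      (le_of_eq (by rw [hsub]))
    have hpos : 0 ≤ Phi (u1 + u2 + u3) (q ^ 2) := by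
      have := hP1 u1 u2 u3 n1 n2 n3
      rw [hprod] at this
      exact this
    have hbase := phi_base r φ
    rw [← hq] at hbase
    rw [hbase] at hphi
    have hD : DP r (Real.cos φ) ≤ 1 / 1000 := by
      have h6 : ‖v‖ ≤ 1 / 1000000 := by
        have : (10 : ℝ) ^ (-6 : ℤ) = 1 / 1000000 := by norm_num
        rw [this] at hsmall
        exact hsmall.le
      linarith
    have h3 := hP3 (a1 - φ) (a2 - φ) (a3 - φ) φ (by linarith)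
    rw [← hr] at h3
    have h2 := hP2 r (Real.cos φ) hcos1 hcos2 hr6' hr6 hD h3.1 h3.2
    have h8 : 0 ≤ (10 : ℝ) ^ 14 * ‖v‖ ^ 2 := by positivity
    linarith

end Pool.Agent.H221R3.MD
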