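import Pool.Agent.H221R3.MD.StmtsP

set_option autoImplicit false

namespace Pool.Agent.H221R3.MD

open Finset Real

/-- numerator of the kernel -/
noncomputable def K0 (u v : Fin 10) : ℝ :=
  (10 : ℝ) ^ 14 + (if u = 0 ∧ v = 0 then 29 / 50 else 0) - (if 4 ≤ u ∧ 4 ≤ v then 1 else 0)
    - (if (u = 0 ∧ 4 ≤ v) ∨ (4 ≤ u ∧ v = 0) then 31 / 20 else 0)

noncomputable def KK (u v : Fin 10) : ℝ := K0 u v / (10 * (10 : ℝ) ^ 14 + 29 / 50 - 6)

lemma K0_trans (θ : Fin 10 → ℝ) :
    ∑ u, ∑ v, K0 u v * cos (θ u - θ v)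
      = (10 : ℝ) ^ 14 * ((∑ u, cos (θ u)) ^ 2 + (∑ u, sin (θ u)) ^ 2)
        + 29 / 50 * (cos (θ 0) * cos (θ 0) + sin (θ 0) * sin (θ 0))
        - ((cos (θ 4) + cos (θ 5) + cos (θ 6) + cos (θ 7) + cos (θ 8) + cos (θ 9)) ^ 2
          + (sin (θ 4) + sin (θ 5) + sin (θ 6) + sin (θ 7) + sin (θ 8) + sin (θ 9)) ^ 2)
        - 31 / 10 * (cos (θ 0) * (cos (θ 4) + cos (θ 5) + cos (θ 6) + cos (θ 7) + cos (θ 8) + cos (θ 9))
          + sin (θ 0) * (sin (θ 4) + sin (θ 5) + sin (θ 6) + sin (θ 7) + sin (θ 8) + sin (θ 9))) := by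
  have h : ∀ u v, cos (θ u - θ v) = cos (θ u) * cos (θ v) + sin (θ u) * sin (θ v) := fun u v => cos_sub _ _
  simp only [h, K0]
  simp only [Fin.sum_univ_succ, Fin.sum_univ_zero]
  simp [Fin.le_def]
  ring

lemma KK_sum (f : Fin 10 → Fin 10 → ℝ) :
    ∑ u, ∑ v, KK u v * f u v = (∑ u, ∑ v, K0 u v * f u v) / (10 * (10 : ℝ) ^ 14 + 29 / 50 - 6) := by
  rw [Finset.sum_div]
  refine Finset.sum_congr rfl fun u _ => ?_
  rw [Finset.sum_div]
  refine Finset.sum_congr rfl fun v _ => ?_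
  unfold KK
  ring

theorem taskP5 : TaskP5 := by
  intro hP1 hP2 hP3 hP4
  have main := hP4 hP1 hP2 hP3
  refine ⟨KK, (100 * (10 : ℝ) ^ 14 + 29 / 50 - 36 - 93 / 5) / (10 * (10 : ℝ) ^ 14 + 29 / 50 - 6),
    by norm_num, ?_, ?_, ?_, ?_, ?_⟩
  · intro u v
    unfold KK K0
    apply div_nonneg _ (by norm_num)
    split_ifs <;> norm_num
  · intro u v
    unfold KK K0
    have h1 : (u = 0 ∧ v = 0) ↔ (v = 0 ∧ u = 0) := and_comm
    have h2 : (4 ≤ u ∧ 4 ≤ v) ↔ (4 ≤ v ∧ 4 ≤ u) := and_comm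
    have h3 : ((u = 0 ∧ 4 ≤ v) ∨ (4 ≤ u ∧ v = 0)) ↔ ((v = 0 ∧ 4 ≤ u) ∨ (4 ≤ v ∧ u = 0)) := by tauto
    simp only [h1, h2, h3]
  · unfold KK K0
    simp only [Fin.sum_univ_succ, Fin.sum_univ_zero]
    simp [Fin.le_def]
    norm_num
  · have := KK_sum (fun _ _ => 1)
    simp only [mul_one] at this
    rw [this]
    have h0 := K0_trans (fun _ => 0)
    simp only [sub_self, cos_zero, mul_one, sin_zero] at h0
    rw [h0]
    simp
    norm_num
  · intro x
    obtain ⟨θ, hθ⟩ : ∃ θ : Fin 10 → ℝ, ∀ u, θ u = ∑ s, x s * (DT u s : ℝ) := ⟨_, fun _ => rfl⟩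
    have hang : ∀ u v, (∑ s, x s * ((DT u s : ℝ) - (DT v s : ℝ))) = θ u - θ v := by
      intro u v
      rw [hθ, hθ, ← Finset.sum_sub_distrib]
      exact Finset.sum_congr rfl fun s _ => by ring
    simp only [hang]
    rw [KK_sum]
    apply div_nonneg _ (by norm_num)
    have rel1 : θ 7 + θ 0 = θ 5 + θ 6 := by
      simp only [hθ, ← Finset.sum_add_distrib]
      refine Finset.sum_congr rfl fun s _ => ?_
      have : ∀ s, DT 7 s + DT 0 s = DT 5 s + DT 6 s := by decide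
      have h := this s
      have h' : (DT 7 s : ℝ) + DT 0 s = DT 5 s + DT 6 s := by exact_mod_cast h
      linear_combination x s * h'
    have rel2 : θ 8 + θ 0 = θ 4 + θ 6 := by
      simp only [hθ, ← Finset.sum_add_distrib]
      refine Finset.sum_congr rfl fun s _ => ?_
      have : ∀ s, DT 8 s + DT 0 s = DT 4 s + DT 6 s := by decide
      have h := this s
      have h' : (DT 8 s : ℝ) + DT 0 s = DT 4 s + DT 6 s := by exact_mod_cast h
      linear_combination x s * h'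
    have rel3 : θ 9 + θ 0 = θ 4 + θ 5 := by
      simp only [hθ, ← Finset.sum_add_distrib]
      refine Finset.sum_congr rfl fun s _ => ?_
      have : ∀ s, DT 9 s + DT 0 s = DT 4 s + DT 5 s := by decide
      have h := this s
      have h' : (DT 9 s : ℝ) + DT 0 s = DT 4 s + DT 5 s := by exact_mod_cast h
      linear_combination x s * h'
    have rel4 : θ 1 + θ 2 + θ 3 = θ 4 + θ 5 + θ 6 := by
      simp only [hθ, ← Finset.sum_add_distrib]
      refine Finset.sum_congr rfl fun s _ => ?_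
      have : ∀ s, DT 1 s + DT 2 s + DT 3 s = DT 4 s + DT 5 s + DT 6 s := by decide
      have h := this s
      have h' : (DT 1 s : ℝ) + DT 2 s + DT 3 s = DT 4 s + DT 5 s + DT 6 s := by exact_mod_cast h
      linear_combination x s * h'
    -- rotate by `θ 0`
    obtain ⟨η, hη⟩ : ∃ η : Fin 10 → ℝ, ∀ u, η u = θ u - θ 0 := ⟨_, fun _ => rfl⟩
    have hrot : ∀ u v, θ u - θ v = η u - η v := by intro u v; rw [hη, hη]; ring
    simp only [hrot]
    rw [K0_trans]
    have e0 : η 0 = 0 := by rw [hη]; ring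
    obtain ⟨φ, hφ⟩ : ∃ φ, φ = (η 4 + η 5 + η 6) / 2 := ⟨_, rfl⟩
    have e7 : η 7 = φ - (η 4 - φ) := by rw [hφ, hη 7, hη 4, hη 5, hη 6]; linarith
    have e8 : η 8 = φ - (η 5 - φ) := by rw [hφ, hη 8, hη 4, hη 5, hη 6]; linarith
    have e9 : η 9 = φ - (η 6 - φ) := by rw [hφ, hη 9, hη 4, hη 5, hη 6]; linarith
    have e4 : η 4 = φ + (η 4 - φ) := by ring
    have e5 : η 5 = φ + (η 5 - φ) := by ring
    have e6 : η 6 = φ + (η 6 - φ) := by ring
    obtain ⟨r, hr⟩ : ∃ r, r = 2 * (cos (η 4 - φ) + cos (η 5 - φ) + cos (η 6 - φ)) := ⟨_, rfl⟩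
    have hm := main (η 4) (η 5) (η 6) (η 1) (η 2) (η 3) φ r (by rw [hφ]; ring)
      (by rw [hφ, hη 1, hη 2, hη 3, hη 4, hη 5, hη 6]; linarith) hr
    have hT : cos (η 4) + cos (η 5) + cos (η 6) + cos (η 7) + cos (η 8) + cos (η 9) = r * cos φ := by
      have c4 : cos (η 4) + cos (η 7) = 2 * cos φ * cos (η 4 - φ) := by
        rw [e7, cos_sub]
        conv_lhs => rw [e4, cos_add]
        ring_nf
      have c5 : cos (η 5) + cos (η 8) = 2 * cos φ * cos (η 5 - φ) := by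
        rw [e8, cos_sub]
        conv_lhs => rw [e5, cos_add]
        ring_nf
      have c6 : cos (η 6) + cos (η 9) = 2 * cos φ * cos (η 6 - φ) := by
        rw [e9, cos_sub]
        conv_lhs => rw [e6, cos_add]
        ring_nf
      rw [hr]
      linear_combination c4 + c5 + c6
    have hS : sin (η 4) + sin (η 5) + sin (η 6) + sin (η 7) + sin (η 8) + sin (η 9) = r * sin φ := by
      have c4 : sin (η 4) + sin (η 7) = 2 * sin φ * cos (η 4 - φ) := by
        rw [e7, sin_sub]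
        conv_lhs => rw [e4, sin_add]
        ring_nf
      have c5 : sin (η 5) + sin (η 8) = 2 * sin φ * cos (η 5 - φ) := by
        rw [e8, sin_sub]
        conv_lhs => rw [e5, sin_add]
        ring_nf
      have c6 : sin (η 6) + sin (η 9) = 2 * sin φ * cos (η 6 - φ) := by
        rw [e9, sin_sub]
        conv_lhs => rw [e6, sin_add]
        ring_nf
      rw [hr]
      linear_combination c4 + c5 + c6
    have hC : ∑ u, cos (η u) = 1 + r * cos φ + (cos (η 1) + cos (η 2) + cos (η 3)) := by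
      have : ∑ u, cos (η u) = cos (η 0) + cos (η 1) + cos (η 2) + cos (η 3) + cos (η 4) + cos (η 5)
          + cos (η 6) + cos (η 7) + cos (η 8) + cos (η 9) := by
        simp only [Fin.sum_univ_succ, Fin.sum_univ_zero]
        simp
        ring
      rw [this, e0, cos_zero, ← hT]
      ring
    have hSs : ∑ u, sin (η u) = r * sin φ + (sin (η 1) + sin (η 2) + sin (η 3)) := by
      have : ∑ u, sin (η u) = sin (η 0) + sin (η 1) + sin (η 2) + sin (η 3) + sin (η 4) + sin (η 5)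
          + sin (η 6) + sin (η 7) + sin (η 8) + sin (η 9) := by
        simp only [Fin.sum_univ_succ, Fin.sum_univ_zero]
        simp
        ring
      rw [this, e0, sin_zero, ← hS]
      ring
    rw [hT, hS, hC, hSs, e0, cos_zero, sin_zero]
    have hcs := sin_sq_add_cos_sq φ
    have hfin : (r * cos φ) ^ 2 + (r * sin φ) ^ 2 = r ^ 2 := by
      linear_combination r ^ 2 * hcs
    rw [hfin]
    linarith

end Pool.Agent.H221R3.MD
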