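import Pool.Agent.H221R3.MD.Stmts

/-!
Project MD (helper221): the positivity certificate `TaskP`, cut into small tasks.

Structure of the graph `DT`: vertex 0, x = 1,2,3, y = 4,5,6, z = 7,8,9 with (as rows of `DT`)
`D_7 + D_0 = D_5 + D_6`, `D_8 + D_0 = D_4 + D_6`, `D_9 + D_0 = D_4 + D_5`,
`D_1 + D_2 + D_3 = D_4 + D_5 + D_6`.
-/

set_option autoImplicit false

namespace Pool.Agent.H221R3.MD

open Finset

/-- TaskP1 (deltoid inequality): the right side is `‖(u1-u2)(u2-u3)(u3-u1)‖^2`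
(use `conj u = u⁻¹`, `field_simp; ring`). -/
def TaskP1 : Prop := ∀ u1 u2 u3 : ℂ, ‖u1‖ = 1 → ‖u2‖ = 1 → ‖u3‖ = 1 →
  0 ≤ 27 - 18 * ‖u1 + u2 + u3‖ ^ 2
    + 8 * ((u1 + u2 + u3) ^ 3 * (starRingEnd ℂ) (u1 * u2 * u3)).re - ‖u1 + u2 + u3‖ ^ 4

/-- the polynomial `- Φ(-1 - q r)` with `q = C + i S`, `C^2 + S^2 = 1`. -/
noncomputable def DP (r C : ℝ) : ℝ :=
  r ^ 4 + 12 * r ^ 3 * C + 4 * r ^ 2 * C ^ 2 + 44 * r ^ 2 + 64 * r * C - 16 + 16 * C ^ 2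

/-- TaskP2 (real inequality).  Proof plan: suppose `P = r^2 + k r C > m`, `k = 31/10`, `m = 29/50`; wlog `r ≥ 0`,
`C = -c`.  (i) `c ≤ 0`: `16 C^2 ≥ 16 (2 l r C - l^2 r^2)` with `l = 0.928` gives `DP ≥ 30.2 P - 16`.
(ii) `c > 0`, `r^2 ≤ 10.6`: with `R = r^2`, `t = r c < (R - m)/k`,
`R * DP = R^3 - 12 R^2 t + 4 R t^2 + 44 R^2 - 64 R t - 16 R + 16 t^2` is decreasing in `t` and at `t = (R-m)/k`
it is a cubic in `R` which is positive on `[m, 10.6]`.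
(iii) `r ≥ 3.25`: `c ≤ 1 - (r-3)^2/8`, `DP` is decreasing in `c`, and
`DP(r,-c) = r (r-4)^3 + (1-c)(12 r^3 + 64 r) - (1-c^2)(4 r^2 + 16)`. -/
def TaskP2 : Prop := ∀ r C : ℝ, -1 ≤ C → C ≤ 1 → -6 ≤ r → r ≤ 6 → DP r C ≤ 1 / 1000 →
  (3 ≤ r → (r - 3) ^ 2 ≤ 8 * (1 + C)) → (r ≤ -3 → (r + 3) ^ 2 ≤ 8 * (1 - C)) →
  r ^ 2 + (31 / 10) * r * C ≤ 29 / 50

/-- TaskP3.  From `3 + 2 (cos a + cos b + cos (a+b)) ≥ 0` and
`|cos (φ + c) - cos c| ≤ 2 |sin (φ/2)| = sqrt (2 (1 - cos φ))`; the first part follows from the second by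
`φ ↦ φ + π`, `a, b, c ↦ a - π, b - π, c - π`. -/
def TaskP3 : Prop := ∀ a b c φ : ℝ, a + b + c = -φ →
  (3 ≤ 2 * (Real.cos a + Real.cos b + Real.cos c) →
    (2 * (Real.cos a + Real.cos b + Real.cos c) - 3) ^ 2 ≤ 8 * (1 + Real.cos φ)) ∧
  (2 * (Real.cos a + Real.cos b + Real.cos c) ≤ -3 →
    (2 * (Real.cos a + Real.cos b + Real.cos c) + 3) ^ 2 ≤ 8 * (1 - Real.cos φ))

/-- TaskP4 (main inequality).  Put `r = 2 ∑ cos (α_i - φ)`, `q = exp(i φ)`, `U = ∑ exp(i β_j)` (product `q^2`),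
`v = 1 + q r + U`.  If `‖v‖ ≥ 10^(-6)` then `10^14 ‖v‖^2 ≥ 100 ≥ r^2 + 3.1 r cos φ`.  Otherwise
`Φ(U) = 27 - 18‖U‖² + 8 Re (U³ conj(q²)) - ‖U‖⁴ ≥ 0` (TaskP1), and `|Φ(U) - Φ(-1 - q r)| ≤ 600 ‖v‖`,
`Φ(-1 - q r) = - DP r (cos φ)`, so `DP r (cos φ) ≤ 1/1000`; finish by TaskP3 (with `a = α_1 - φ` ...) and TaskP2. -/
def TaskP4 : Prop := TaskP1 → TaskP2 → TaskP3 → ∀ a1 a2 a3 b1 b2 b3 φ r : ℝ,
  a1 + a2 + a3 = 2 * φ → b1 + b2 + b3 = 2 * φ →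
  r = 2 * (Real.cos (a1 - φ) + Real.cos (a2 - φ) + Real.cos (a3 - φ)) →
  0 ≤ (10 : ℝ) ^ 14 * ((1 + r * Real.cos φ + (Real.cos b1 + Real.cos b2 + Real.cos b3)) ^ 2
        + (r * Real.sin φ + (Real.sin b1 + Real.sin b2 + Real.sin b3)) ^ 2)
      + 29 / 50 - r ^ 2 - (31 / 10) * r * Real.cos φ

/-- TaskP5.  `K u v = (A + m [u=v=0] - [u,v ≥ 4] - (k/2) [{u,v} = {0, ≥4}]) / (10 A + m - 6)`,
`A = 10^14`, `m = 29/50`, `k = 31/10`; then `C = (100 A + m - 36 - 6 k)/(10 A + m - 6) > 10`.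
With `θ u = ∑ s, x s * DT u s`, the rotated angles `b_i = θ i - θ 0` (i = 1,2,3), `a_i = θ (3+i) - θ 0`,
`φ = (a1+a2+a3)/2`, one has `θ 7 - θ 0 = a2 + a3 = 2φ - a1` etc., `b1+b2+b3 = 2φ`, and the transform of `K` is
the expression of TaskP4 divided by `10 A + m - 6`. -/
def TaskP5 : Prop := TaskP1 → TaskP2 → TaskP3 → TaskP4 → TaskP

end Pool.Agent.H221R3.MD
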